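import Pool.Agent.H73.MA.Fin

/-!
# MP_028722: admissible sets in long intervals without other primes
-/

set_option autoImplicit false

namespace Pool.Agent.Results.MP_028722_nt.AdmissibleWindows

open Finset in
/-- For every `m` there are `K`, `c > 0` and `x₀` such that for all `x ≥ x₀`, all
`N ≤ c log x (loglog x)² log₄ x/(log₃ x)²` and every set `H` of at least `K` integers of `[1, N]` which misses a residue
class modulo every prime, there is `n` with `x/2 < n`, `n + N ≤ x` such that at least `m + 1` of the integers `n + h`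
(`h ∈ H`) are primes and every integer `n + k` with `1 ≤ k ≤ N`, `k ∉ H` has a prime factor at most `x^(1/64)`. -/
theorem result (m : ℕ) : ∃ (K : ℕ) (c x₀ : ℝ), 0 < c ∧ ∀ x : ℝ, x₀ ≤ x → ∀ N : ℕ,
    (N : ℝ) ≤ c * Real.log x * Real.log (Real.log x) ^ 2 * Real.log (Real.log (Real.log (Real.log x))) /
      Real.log (Real.log (Real.log x)) ^ 2 →
    ∀ H : Finset ℕ, K ≤ H.card → (∀ h ∈ H, 1 ≤ h ∧ h ≤ N) →
    (∀ p : ℕ, p.Prime → ∃ r : ℕ, ∀ h ∈ H, ¬ h ≡ r [MOD p]) →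
    ∃ n : ℕ, x / 2 < n ∧ (n : ℝ) + N ≤ x ∧
      m + 1 ≤ (H.filter (fun h : ℕ => (n + h).Prime)).card ∧
      ∀ k : ℕ, 1 ≤ k → k ≤ N → k ∉ H → ∃ p : ℕ, p.Prime ∧ (p : ℝ) ≤ x ^ (1 / 64 : ℝ) ∧ p ∣ n + k := by
  obtain ⟨K, _, c, x0, hc, h⟩ := H73MA.mas m
  refine ⟨K, c, x0, hc, fun x hx N hN H hHK hHN hadm => ?_⟩
  obtain ⟨Z, hZ, h⟩ := h x hx
  have hNZ : N ≤ Z := by
    have e : c * H91UX.sz (Real.log x) = c * Real.log x * Real.log (Real.log x) ^ 2 *
        Real.log (Real.log (Real.log (Real.log x))) / Real.log (Real.log (Real.log x)) ^ 2 := by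
      unfold H91UX.sz
      ring
    rw [e] at hZ
    exact_mod_cast hN.trans hZ
  obtain ⟨H', hH', hH'K⟩ := Finset.exists_subset_card_eq hHK
  obtain ⟨n, h1, h2, h3, h4⟩ := h H' hH'K (fun s hs => ⟨(hHN s (hH' hs)).1, (hHN s (hH' hs)).2.trans hNZ⟩)
    (fun p hp => by
      obtain ⟨r, hr⟩ := hadm p hp
      exact ⟨r, fun s hs => hr s (hH' hs)⟩)
  have hNZR : (N : ℝ) ≤ Z := by exact_mod_cast hNZ
  refine ⟨n, h1, by linarith, h3.trans (Finset.card_le_card (Finset.filter_subset_filter _ hH')), ?_⟩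
  intro k hk1 hk2 hk3
  exact h4 k hk1 (hk2.trans hNZ) (fun hk => hk3 (hH' hk))

end Pool.Agent.Results.MP_028722_nt.AdmissibleWindows
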