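import Pool.Agent.H73.EM.FinB

/-!
# MP_028722: exactly `m` primes in `(n, n + λ log n]` for a positive proportion of `n`
-/

namespace Pool.Agent.Results.MP_028722_nt.ExactlyM

/-- For all real `0 < λ ≤ Λ` and every `m ≥ 0` there are `c > 0` and `x0` such that for every real `x ≥ x0` at least `c x` of the natural numbers `n ≤ x` have exactly `m` primes in `(n, n + λ log n]` and exactly `m` primes in
`(n, n + Λ log n]`. -/
theorem result (m : ℕ) (lam Lam : ℝ) (hlam : 0 < lam) (hLam : lam ≤ Lam) : ∃ c : ℝ, 0 < c ∧ ∃ x0 : ℝ, ∀ x : ℝ, x0 ≤ x →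
    c * x ≤ (((Finset.Icc 1 ⌊x⌋₊).filter (fun n : ℕ =>
      ((Finset.Ioc n ⌊(n : ℝ) + lam * Real.log n⌋₊).filter Nat.Prime).card = m ∧
      ((Finset.Ioc n ⌊(n : ℝ) + Lam * Real.log n⌋₊).filter Nat.Prime).card = m)).card : ℝ) :=
  H73EM.exactly_m m lam Lam hlam hLam

end Pool.Agent.Results.MP_028722_nt.ExactlyM
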