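import Pool.Agent.H7.LX.Fre

/-!
# How often long prime-free intervals occur
-/

set_option autoImplicit false

namespace Pool.Agent.Results.MP_028722_nt.FrequencyOfLongGaps

/-- For all real `r, A > 0` there are `c > 0`, `C` and `x0` such that for all real `x ≥ x0`:
(i) for `1 ≤ lam ≤ c log log x` and every set `S` of at most `lam log x` integers of absolute value at
most `x ^ A`, for at least `x exp (- exp (C lam))` integers `1 ≤ n ≤ x` no positive `n + s`, `s ∈ S`, is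
prime; `S = {X + 1, ..., X + ⌊lam log x⌋}` gives the intervals `(X + n, X + n + lam log x]`;
(ii) for `0 ≤ X ≤ x ^ A` and `L ≥ 1` with
`L (log (16 + L)) ^ 2 ≤ c (log log x) (log log (16 + L))`, at least `x exp (- (log x) ^ (1 - d))`
integers `n` with `X < n ≤ X + x`, `d = c log log (16 + L) / (L log (16 + L))`, have no prime in
`(n, n + L log x log log x]`.
In both cases each of the integers found composite has a prime factor at most `x ^ r`. -/
theorem result (r A : ℝ) (hr : 0 < r) (hA : 0 < A) :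
    ∃ c : ℝ, 0 < c ∧ ∃ C x0 : ℝ, ∀ x : ℝ, x0 ≤ x →
      (∀ lam : ℝ, 1 ≤ lam → lam ≤ c * Real.log (Real.log x) →
        ∀ S : Finset ℤ, (S.card : ℝ) ≤ lam * Real.log x → (∀ s ∈ S, |(s : ℝ)| ≤ x ^ A) →
        x * Real.exp (-Real.exp (C * lam)) ≤
          (Set.ncard {n : ℕ | 0 < n ∧ (n : ℝ) ≤ x ∧ ∀ s ∈ S, ∀ k : ℕ, 0 < k → (k : ℤ) = n + s →
            ¬ k.Prime ∧ ∃ p : ℕ, p.Prime ∧ (p : ℝ) ≤ x ^ r ∧ p ∣ k} : ℝ)) ∧
      (∀ X : ℕ, (X : ℝ) ≤ x ^ A → ∀ L : ℝ, 1 ≤ L →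
        L * Real.log (16 + L) ^ 2 ≤ c * Real.log (Real.log x) * Real.log (Real.log (16 + L)) →
        x * Real.exp
            (-Real.log x ^ (1 - c * Real.log (Real.log (16 + L)) / (L * Real.log (16 + L)))) ≤
          (Set.ncard {n : ℕ | X < n ∧ (n : ℝ) ≤ X + x ∧ ∀ k : ℕ, n < k →
            (k : ℝ) ≤ n + L * (Real.log x * Real.log (Real.log x)) →
            ¬ k.Prime ∧ ∃ p : ℕ, p.Prime ∧ (p : ℝ) ≤ x ^ r ∧ p ∣ k} : ℝ)) :=
  Pool.Agent.H7.LX.frequency hr hA

end Pool.Agent.Results.MP_028722_nt.FrequencyOfLongGaps
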