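import Pool.Agent.H91.CK.Rms
import Pool.Agent.H91.CK.Run

/-!
# MP_028722: primes with shifts from a prescribed family, without other primes, in windows of length Λ log x
-/

set_option autoImplicit false

namespace Pool.Agent.Results.MP_028722_nt.ShiftFamilies

open Finset

/-- For every `m` there is `K` such that for every real `Λ` there are `c > 0` and `x₀` such that for all real
`x ≥ x₀` and every finite family `F` of `K`-element sets of integers in `[1, Λ log x]`, each of which misses a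
residue class modulo every prime, at least `c |F| x / (log x)^K` of the integers `n` with `x/3 ≤ n`,
`n + Λ log x ≤ x` have an `H ∈ F` such that at least `m + 1` of the `n + h` (`h ∈ H`) are primes, no `n + k` with
`1 ≤ k ≤ Λ log x`, `k ∉ H` is prime, and all prime factors of the `n + h` (`h ∈ H`) are larger than `x^c`. -/
theorem result (m : ℕ) : ∃ K : ℕ, m < K ∧ ∀ Λ : ℝ, ∃ c x₀ : ℝ, 0 < c ∧ ∀ x : ℝ, x₀ ≤ x →
    ∀ F : Finset (Finset ℕ), (∀ H ∈ F, H.card = K ∧ (∀ h ∈ H, 1 ≤ h ∧ (h : ℝ) ≤ Λ * Real.log x) ∧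
      ∀ p : ℕ, p.Prime → ∃ r : ℕ, ∀ h ∈ H, ¬ h ≡ r [MOD p]) →
    c * (F.card : ℝ) * x / Real.log x ^ K ≤
      (Set.ncard {n : ℕ | x / 3 ≤ n ∧ (n : ℝ) + Λ * Real.log x ≤ x ∧ ∃ H ∈ F,
        m + 1 ≤ (H.filter (fun h => (n + h).Prime)).card ∧
        (∀ k : ℕ, 1 ≤ k → (k : ℝ) ≤ Λ * Real.log x → k ∉ H → ¬ (n + k).Prime) ∧
        ∀ h ∈ H, ∀ p : ℕ, p.Prime → p ∣ n + h → x ^ c < p} : ℝ) := by
  obtain ⟨K, hK, h⟩ := H91CK.families m
  exact ⟨K, hK, h⟩

/-- Allowed shifts and forbidden differences: the primes of `(n, n + Λ log x]` can be confined to `n + A`, and their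
differences kept out of `D`, for at least `c x (|A| / log x)^K` of the `n ≤ x` (a positive proportion if
`|A| ≥ ε log x`). -/
theorem allowed_shifts (m : ℕ) : ∃ K M : ℕ, ∃ κ : ℝ, 0 < κ ∧ ∀ Λ : ℝ, ∃ c x₀ : ℝ, 0 < c ∧
    ∀ x : ℝ, x₀ ≤ x → ∀ A D : Finset ℕ, M ≤ A.card →
    (∀ a ∈ A, 1 ≤ a ∧ (a : ℝ) ≤ Λ * Real.log x) → (D.card : ℝ) ≤ κ * A.card →
    c * x * ((A.card : ℝ) / Real.log x) ^ K ≤
      (Set.ncard {n : ℕ | x / 3 ≤ n ∧ (n : ℝ) + Λ * Real.log x ≤ x ∧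
        m + 1 ≤ (A.filter (fun a => (n + a).Prime)).card ∧
        (∀ k : ℕ, 1 ≤ k → (k : ℝ) ≤ Λ * Real.log x → (n + k).Prime → k ∈ A) ∧
        ∀ a ∈ A, ∀ b ∈ A, a < b → (n + a).Prime → (n + b).Prime → b - a ∉ D} : ℝ) :=
  H91CK.allowed m

/-- Colourings: for every set `A` of at least `ε log x` integers in `[1, Λ log x]` and every colouring of its
`s`-element subsets with `r` colours, a positive proportion of the `n ≤ x` have at least `m + 1` primes in `n + A`, no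
other prime in `(n, n + Λ log x]`, and all `s`-element sets of shifts giving primes have the same colour. -/
theorem monochromatic (m s r : ℕ) (Λ ε : ℝ) (hε : 0 < ε) : ∃ c x₀ : ℝ, 0 < c ∧
    ∀ x : ℝ, x₀ ≤ x → ∀ A : Finset ℕ, ε * Real.log x ≤ A.card →
    (∀ a ∈ A, 1 ≤ a ∧ (a : ℝ) ≤ Λ * Real.log x) → ∀ χ : Finset ℕ → Fin r,
    c * x ≤ (Set.ncard {n : ℕ | x / 3 ≤ n ∧ (n : ℝ) + Λ * Real.log x ≤ x ∧
        m + 1 ≤ (A.filter (fun a => (n + a).Prime)).card ∧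
        (∀ k : ℕ, 1 ≤ k → (k : ℝ) ≤ Λ * Real.log x → (n + k).Prime → k ∈ A) ∧
        ∃ col : Fin r, ∀ Z ⊆ A.filter (fun a => (n + a).Prime), Z.card = s → χ Z = col} : ℝ) :=
  H91CK.monochromatic m s r Λ ε hε

/-- Runs of long gaps, each more than `R` times the one before, for a positive proportion of the primes
`p 0 = 2, p 1 = 3, ...`. -/
theorem growing_runs (m : ℕ) (lam R : ℝ) (hlam : 0 < lam) :
    ∃ c : ℝ, 0 < c ∧ ∃ x₀ : ℝ, ∀ x : ℝ, x₀ ≤ x → c * (Nat.primeCounting ⌊x⌋₊ : ℝ) ≤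
        (Set.ncard {i : ℕ | i < Nat.primeCounting ⌊x⌋₊ ∧
          (∀ j < m, lam * Real.log x <
            (Nat.nth Nat.Prime (i + j + 1) : ℝ) - (Nat.nth Nat.Prime (i + j) : ℝ)) ∧
          ∀ j, j + 1 < m →
            R * ((Nat.nth Nat.Prime (i + j + 1) : ℝ) - (Nat.nth Nat.Prime (i + j) : ℝ)) <
              (Nat.nth Nat.Prime (i + j + 1 + 1) : ℝ) - (Nat.nth Nat.Prime (i + j + 1) : ℝ)} : ℝ) :=
  H91CK.growing m lam R hlam

/-- Runs of long gaps, each less than `1 / R` times the one before, for a positive proportion of the primes. -/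
theorem shrinking_runs (m : ℕ) (lam R : ℝ) (hlam : 0 < lam) :
    ∃ c : ℝ, 0 < c ∧ ∃ x₀ : ℝ, ∀ x : ℝ, x₀ ≤ x → c * (Nat.primeCounting ⌊x⌋₊ : ℝ) ≤
        (Set.ncard {i : ℕ | i < Nat.primeCounting ⌊x⌋₊ ∧
          (∀ j < m, lam * Real.log x <
            (Nat.nth Nat.Prime (i + j + 1) : ℝ) - (Nat.nth Nat.Prime (i + j) : ℝ)) ∧
          ∀ j, j + 1 < m →
            R * ((Nat.nth Nat.Prime (i + j + 1 + 1) : ℝ) - (Nat.nth Nat.Prime (i + j + 1) : ℝ)) <
              (Nat.nth Nat.Prime (i + j + 1) : ℝ) - (Nat.nth Nat.Prime (i + j) : ℝ)} : ℝ) :=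
  H91CK.shrinking m lam R hlam

end Pool.Agent.Results.MP_028722_nt.ShiftFamilies
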